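import Pool.Agent.LRG.StmtsE

/-!
# Squad LRG, block E, row IRE
-/

set_option autoImplicit false

open Polynomial

namespace Pool.Agent.LRG.H29

open Pool.Agent.LRG.E

theorem ire : IreStmt := by
  intro hFct hSpc r₁ r₂ t ht hr
  obtain ⟨-, hmon, -, hG⟩ := hFct r₁ r₂ t
  obtain ⟨s1, -, -⟩ := hSpc r₁ r₂
  have ht2 : (2 : ℝ) ≤ t := by exact_mod_cast ht
  have hcard : Fintype.card (Ro r₁ r₂) = r₁ + 2 * r₂ := by
    simp [Fintype.card_sum, Fintype.card_prod, mul_comm]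
  refine Pool.Agent.Helper65_Dens.irreducible_of_pairs hmon
    (fun o : Ro r₁ r₂ => (t : ℂ) * om o) hG (by rw [hcard]; omega) ?_ ?_
  · intro o o' h
    by_contra hne
    have h1 := s1 o o' hne
    have h2 : (t : ℂ) * (om o - om o') = 0 := by
      rw [mul_sub]
      exact sub_eq_zero.2 h
    rcases mul_eq_zero.1 h2 with h3 | h3
    · have h4 : (t : ℝ) = 0 := by exact_mod_cast h3
      linarith
    · rw [h3, norm_zero] at h1
      linarith
  · intro u v o huv
    rcases o with i | ⟨j, b⟩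
    · -- an integer
      obtain ⟨a, ha⟩ : ∃ a : ℤ, a = (t : ℤ) * 5 ^ i.1 := ⟨_, rfl⟩
      have hw : (t : ℂ) * om (Sum.inl i : Ro r₁ r₂) = ((Int.castRingHom ℂ) a : ℂ) := by
        rw [ha]
        simp [om, omre, omim, ex, fac]
      have hev : ∀ q : ℤ[X], (q.map (Int.castRingHom ℂ)).eval ((Int.castRingHom ℂ) a) =
          ((q.eval a : ℤ) : ℂ) := by
        intro q
        rw [eval_map, eval₂_at_apply]
        rfl
      simp only [hw, hev] at huv ⊢
      have h1 : u.eval a * v.eval a = -1 := by exact_mod_cast huv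
      rcases Int.eq_one_or_neg_one_of_mul_eq_neg_one' h1 with ⟨h2, h3⟩ | ⟨h2, h3⟩ <;>
        rw [h2, h3] <;> simp
    · obtain ⟨m, hm⟩ : ∃ m : ℕ, m = r₁ + j.1 := ⟨_, rfl⟩
      obtain ⟨s, hs, hs'⟩ : ∃ s : ℤ, s ^ 2 = 1 ∧
          (omim (Sum.inr (j, b) : Ro r₁ r₂)) = s * 5 ^ m := by
        rcases b with _ | _
        · exact ⟨-1, by norm_num, by simp [omim, hm]⟩
        · exact ⟨1, by norm_num, by simp [omim, hm]⟩
      have hre' : omre (Sum.inr (j, b) : Ro r₁ r₂) = 5 ^ m := by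
        simp [omre, ex, fac, hm]
      have hw : (t : ℂ) * om (Sum.inr (j, b) : Ro r₁ r₂) =
          ((t : ℂ) * 5 ^ m) + ((t : ℂ) * ((s : ℂ) * 5 ^ m)) * Complex.I := by
        rw [om, hre', hs']
        push_cast
        ring
      have hs2 : (s : ℂ) ^ 2 = 1 := by exact_mod_cast hs
      have hs3 : (s : ℝ) ^ 2 = 1 := by exact_mod_cast hs
      have h25 : ((25 : ℤ)) ^ m = (5 ^ m) ^ 2 := by rw [← pow_mul, mul_comm, pow_mul]; norm_num
      refine Pool.Agent.Helper65_Dens.quadratic_unit u v (-(2 * 5 ^ m * (t : ℤ)))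
        (2 * 25 ^ m * (t : ℤ) ^ 2) ?_ _ ?_ ?_ ?_ huv
      · rw [h25]
        have h5 : (1 : ℤ) ≤ 5 ^ m := one_le_pow₀ (by norm_num)
        have ht' : (2 : ℤ) ≤ t := by exact_mod_cast ht
        have h6 : (2 : ℤ) ≤ 5 ^ m * t := by nlinarith
        nlinarith
      · rw [hw]
        have h1 : ((t : ℂ) * 5 ^ m + (t : ℂ) * ((s : ℂ) * 5 ^ m) * Complex.I) =
            (((t : ℝ) * 5 ^ m : ℝ) : ℂ) + (((t : ℝ) * ((s : ℝ) * 5 ^ m) : ℝ) : ℂ) * Complex.I := by
          push_cast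
          ring
        rw [h1, Complex.add_re, Complex.ofReal_re, Complex.re_ofReal_mul, Complex.I_re]
        push_cast
        ring
      · rw [hw]
        have h1 : ((t : ℂ) * 5 ^ m + (t : ℂ) * ((s : ℂ) * 5 ^ m) * Complex.I) =
            (((t : ℝ) * 5 ^ m : ℝ) : ℂ) + (((t : ℝ) * ((s : ℝ) * 5 ^ m) : ℝ) : ℂ) * Complex.I := by
          push_cast
          ring
        rw [h1, Complex.add_im, Complex.ofReal_im, Complex.im_ofReal_mul, Complex.I_im, h25]
        push_cast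
        linear_combination ((t : ℝ) * 5 ^ m) ^ 2 * hs3
      · rw [hw, h25]
        push_cast
        linear_combination ((t : ℂ) * 5 ^ m) ^ 2 * hs2 * Complex.I ^ 2 +
          ((t : ℂ) * 5 ^ m) ^ 2 * Complex.I_sq

end Pool.Agent.LRG.H29
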