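import Pool.Agent.LRG.StmtsC

set_option autoImplicit false

open Polynomial

namespace Pool.Agent.LRG.H29

theorem mrt : CX.MrtStmt := by
  intro Ω _ _ R g β hβ
  set m := minpoly ℚ (β : Ω) with hm
  obtain ⟨b, hb⟩ := IsLocalization.integerNormalization_map_to_map (nonZeroDivisors ℤ) m
  set P := IsLocalization.integerNormalization (nonZeroDivisors ℤ) m with hP
  have hb0 : ((b : ℤ) : ℚ) ≠ 0 := by
    have := nonZeroDivisors.coe_ne_zero b
    exact_mod_cast this
  -- general computation
  have key : ∀ (E : Type) [Field E] [CharZero E] [Algebra ℚ E] (x : E),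
      eval₂ (Int.castRingHom E) x P = ((b : ℤ) : E) * aeval x m := by
    intro E _ _ _ x
    have h1 : eval₂ (Int.castRingHom E) x P = aeval x (P.map (algebraMap ℤ ℚ)) := by
      rw [aeval_def, eval₂_map]
      congr 1
      exact RingHom.ext_int _ _
    rw [h1, hb]
    rw [zsmul_eq_mul, map_mul, map_intCast]
  have h0 : eval₂ (Int.castRingHom Ω) (β : Ω) P = 0 := by
    rw [key Ω (β : Ω), hm, minpoly.aeval, mul_zero]
  have h1 : eval₂ (Int.castRingHom R) β P = 0 := by
    apply Subtype.val_injective
    have h2 : ((eval₂ (Int.castRingHom R) β P : R) : Ω) =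
        eval₂ (Int.castRingHom Ω) (β : Ω) P := by
      have h3 := hom_eval₂ P (Int.castRingHom R) R.subtype β
      rw [show (R.subtype.comp (Int.castRingHom R)) = Int.castRingHom Ω from
        RingHom.ext_int _ _] at h3
      exact h3
    rw [h2, h0]
    rfl
  have h2 : eval₂ (Int.castRingHom ℂ) (g β) P = 0 := by
    have h3 := hom_eval₂ P (Int.castRingHom R) g β
    rw [h1, map_zero, show (g.comp (Int.castRingHom R)) = Int.castRingHom ℂ from
      RingHom.ext_int _ _] at h3
    exact h3.symm
  rw [key ℂ (g β)] at h2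
  rcases mul_eq_zero.1 h2 with h | h
  · exfalso
    apply hb0
    have : ((b : ℤ) : ℂ) = 0 := h
    have h4 : (b : ℤ) = 0 := by exact_mod_cast this
    rw [h4]
    simp
  · exact h

end Pool.Agent.LRG.H29
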