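import Pool.Agent.Helper29_LRG.AssZ
import Pool.Agent.Helper29_LRG.IRE
import Pool.Agent.Helper5_LRG.AssA
import Pool.Agent.Helper5_LRG.AssC
import Pool.Agent.Helper69_LRG.AssB
import Pool.Agent.Helper74_LRG.AssK
import Pool.Agent.Helper80_LRG.LowAll
import Pool.Agent.Helper27_LRG.BLK
import Pool.Agent.Helper21_LRG.PKB
import Pool.Agent.Helper62_LRG.SPN
import Pool.Agent.Helper41_LRG.BAS
import Pool.Agent.Helper86_LRG.CNJ
import Pool.Agent.Helper9_LRG.IMR
import Pool.Agent.Helper10_LRG.SHU
import Pool.Agent.Helper49_LRG.POL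
import Pool.Agent.Helper41_LRG.GNU
import Pool.Agent.Helper62_LRG.FEW

/-!
# Squad LRG: the main theorem, assembled
-/

set_option autoImplicit false

namespace Pool.Agent.LRG.H29

theorem oneConcl : OneConcl := H62.few H49.pol H41.gnu

theorem regConcl : RegConcl :=
  H10.shu (H62.spn H27.blk H21.pkb) H41.bas H86.cnj H9.imr

theorem mainAll : MainConcl :=
  mainConcl H5.unvConcl H5.falConcl H5.sizConcl (H5.blkConcl H74.kolConcl)
    AssB.ppwConcl oneConcl regConcl (H80.lowAll ire oneConcl regConcl)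

end Pool.Agent.LRG.H29
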