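import Mathlib

/-!
# Squad LRG: a diagonal argument
-/

set_option autoImplicit false

open Filter

namespace Pool.Agent.LRG.H29

/-- Diagonal argument: bounds for every single `p` give a bound for all `p ≤ P T` with a function
`P` tending to infinity. -/
theorem diagonal {α : Type} (S : ℝ → Set α) (hmono : ∀ T T', T ≤ T' → S T ⊆ S T')
    (hfin : ∀ T, (S T).Finite) (B : ℕ → Set α) (h : ℝ → ℝ) (h0 : ∀ T, 0 ≤ T → 0 ≤ h T)
    (hh : Tendsto h atTop atTop)
    (hB : ∀ p : ℕ, ∀ ε : ℝ, 0 < ε → ∃ C : ℝ, ∀ T : ℝ, 0 ≤ T →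
      ((S T ∩ B p).ncard : ℝ) ≤ C * Real.exp (ε * h T)) :
    ∃ P : ℝ → ℕ, Tendsto P atTop atTop ∧ ∀ ε : ℝ, 0 < ε → ∃ C : ℝ, ∀ T : ℝ, 0 ≤ T →
      ((S T ∩ ⋃ p ∈ Finset.range (P T + 1), B p).ncard : ℝ) ≤ C * Real.exp (ε * h T) := by
  classical
  -- the constants
  choose! C hC using hB
  -- for every k a threshold
  have hthr : ∀ k : ℕ, ∃ τ : ℝ, ∀ T : ℝ, τ ≤ T →
      ∑ p ∈ Finset.range (k + 1), |C p (1 / (k + 1))| ≤ Real.exp ((1 / (k + 1 : ℝ)) * h T) := by
    intro k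
    have h1 : Tendsto (fun T => Real.exp ((1 / (k + 1 : ℝ)) * h T)) atTop atTop :=
      Real.tendsto_exp_atTop.comp (Tendsto.const_mul_atTop (by positivity) hh)
    obtain ⟨τ, hτ⟩ := (h1.eventually_ge_atTop
      (∑ p ∈ Finset.range (k + 1), |C p (1 / (k + 1))|)).exists_forall_of_atTop
    exact ⟨τ, hτ⟩
  choose τ hτ using hthr
  -- P T = the largest k ≤ T with τ j ≤ T for j ≤ k
  let Q : ℝ → ℕ → Prop := fun T k => (k : ℝ) ≤ T ∧ τ k ≤ T
  let P : ℝ → ℕ := fun T => Nat.findGreatest (fun k => Q T k) ⌈|T|⌉₊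
  have hPbig : Tendsto P atTop atTop := by
    rw [tendsto_atTop]
    intro k
    filter_upwards [eventually_ge_atTop (k : ℝ), eventually_ge_atTop (τ k)] with T h1 h2
    apply Nat.le_findGreatest
    · have : (k : ℝ) ≤ ⌈|T|⌉₊ := by
        calc (k : ℝ) ≤ T := h1
          _ ≤ |T| := le_abs_self T
          _ ≤ ⌈|T|⌉₊ := Nat.le_ceil _
      exact_mod_cast this
    · exact ⟨h1, h2⟩
  have hPQ : ∀ T : ℝ, P T ≠ 0 → τ (P T) ≤ T := by
    intro T hne
    have := Nat.findGreatest_of_ne_zero (P := fun k => Q T k) (n := ⌈|T|⌉₊) (m := P T) rfl hne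
    exact this.2
  refine ⟨P, hPbig, ?_⟩
  intro ε hε
  -- k₀ with 2 / (k₀ + 1) ≤ ε
  obtain ⟨k₀, hk₀⟩ := exists_nat_gt (2 / ε)
  have hev : ∀ᶠ T in atTop, max k₀ 1 ≤ P T := hPbig.eventually_ge_atTop _
  obtain ⟨T₀, hT₀⟩ := hev.exists_forall_of_atTop
  refine ⟨max 1 ((S T₀).ncard : ℝ), ?_⟩
  intro T hT
  have hexp1 : (1 : ℝ) ≤ Real.exp (ε * h T) := Real.one_le_exp (mul_nonneg hε.le (h0 T hT))
  rcases le_total T₀ T with hle | hle
  · have hk := hT₀ T hle
    have hk0 : k₀ ≤ P T := (le_max_left _ _).trans hk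
    have hk1 : 1 ≤ P T := (le_max_right _ _).trans hk
    set k := P T with hkdef
    have hne : P T ≠ 0 := by omega
    have hτk := hτ k T (hPQ T hne)
    have hkpos : (0 : ℝ) < (k : ℝ) + 1 := by positivity
    have hcard : ((S T ∩ ⋃ p ∈ Finset.range (k + 1), B p).ncard : ℝ) ≤
        ∑ p ∈ Finset.range (k + 1), ((S T ∩ B p).ncard : ℝ) := by
      have h1 : (S T ∩ ⋃ p ∈ Finset.range (k + 1), B p) =
          ⋃ p ∈ Finset.range (k + 1), (S T ∩ B p) := by
        rw [Set.inter_iUnion₂]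
      rw [h1]
      have h2 : (⋃ p ∈ Finset.range (k + 1), (S T ∩ B p)).ncard ≤
          ∑ p ∈ Finset.range (k + 1), (S T ∩ B p).ncard := by
        induction (Finset.range (k + 1)) using Finset.induction_on with
        | empty => simp
        | insert a s ha ih =>
          rw [Finset.set_biUnion_insert, Finset.sum_insert ha]
          exact (Set.ncard_union_le _ _).trans (Nat.add_le_add_left ih _)
      exact_mod_cast h2
    have hsum : ∑ p ∈ Finset.range (k + 1), ((S T ∩ B p).ncard : ℝ) ≤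
        (∑ p ∈ Finset.range (k + 1), |C p (1 / (k + 1))|) *
          Real.exp ((1 / (k + 1 : ℝ)) * h T) := by
      rw [Finset.sum_mul]
      apply Finset.sum_le_sum
      intro p _
      refine (hC p (1 / (k + 1)) (by positivity) T hT).trans ?_
      exact mul_le_mul_of_nonneg_right (le_abs_self _) (Real.exp_pos _).le
    have h3 : (∑ p ∈ Finset.range (k + 1), |C p (1 / (k + 1))|) *
          Real.exp ((1 / (k + 1 : ℝ)) * h T) ≤
        Real.exp ((1 / (k + 1 : ℝ)) * h T) * Real.exp ((1 / (k + 1 : ℝ)) * h T) :=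
      mul_le_mul_of_nonneg_right hτk (Real.exp_pos _).le
    have h4 : Real.exp ((1 / (k + 1 : ℝ)) * h T) * Real.exp ((1 / (k + 1 : ℝ)) * h T) ≤
        Real.exp (ε * h T) := by
      rw [← Real.exp_add]
      apply Real.exp_le_exp.2
      have h5 : (2 / ((k : ℝ) + 1)) ≤ ε := by
        rw [div_le_iff₀ hkpos]
        have h6 : (k₀ : ℝ) ≤ k := by exact_mod_cast hk0
        have h7 : 2 < (k₀ : ℝ) * ε := (div_lt_iff₀ hε).1 hk₀
        nlinarith
      have h8 : 1 / (k + 1 : ℝ) * h T + 1 / (k + 1 : ℝ) * h T = (2 / ((k : ℝ) + 1)) * h T := by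
        ring
      rw [h8]
      exact mul_le_mul_of_nonneg_right h5 (h0 T hT)
    calc ((S T ∩ ⋃ p ∈ Finset.range (k + 1), B p).ncard : ℝ)
        ≤ _ := hcard
      _ ≤ _ := hsum
      _ ≤ _ := h3
      _ ≤ Real.exp (ε * h T) := h4
      _ = 1 * Real.exp (ε * h T) := (one_mul _).symm
      _ ≤ max 1 ((S T₀).ncard : ℝ) * Real.exp (ε * h T) :=
        mul_le_mul_of_nonneg_right (le_max_left _ _) (Real.exp_pos _).le
  · have h1 : ((S T ∩ ⋃ p ∈ Finset.range (P T + 1), B p).ncard : ℝ) ≤ (S T₀).ncard := by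
      have : (S T ∩ ⋃ p ∈ Finset.range (P T + 1), B p).ncard ≤ (S T₀).ncard :=
        Set.ncard_le_ncard (Set.inter_subset_left.trans (hmono T T₀ hle)) (hfin T₀)
      exact_mod_cast this
    calc ((S T ∩ ⋃ p ∈ Finset.range (P T + 1), B p).ncard : ℝ)
        ≤ (S T₀).ncard := h1
      _ ≤ max 1 ((S T₀).ncard : ℝ) := le_max_right _ _
      _ = max 1 ((S T₀).ncard : ℝ) * 1 := (mul_one _).symm
      _ ≤ max 1 ((S T₀).ncard : ℝ) * Real.exp (ε * h T) :=
        mul_le_mul_of_nonneg_left hexp1 (by positivity)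

end Pool.Agent.LRG.H29
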