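import Pool.Agent.LRG.Defs
import Pool.Agent.Helper29_LRG.DGL

/-!
# Squad LRG: the final form of the main theorem (test version with hypothesis `MainConcl`)
-/

set_option autoImplicit false

open NumberField Filter
open Pool.Agent.Helper85_Leo (LeopoldtAt)

namespace Pool.Agent.LRG.H29

/-- The number fields inside `ℂ` with `r₁` real and `r₂` complex places and regulator at
most `T`. -/
def AllFields (r₁ r₂ : ℕ) (T : ℝ) : Set (IntermediateField ℚ ℂ) :=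
  {K | ∃ _ : NumberField K, InfinitePlace.nrRealPlaces K = r₁ ∧
    InfinitePlace.nrComplexPlaces K = r₂ ∧ Units.regulator K ≤ T}

/-- Those of them which have no subfield strictly between `ℚ` and `K`. -/
def PrimFields (r₁ r₂ : ℕ) (T : ℝ) : Set (IntermediateField ℚ ℂ) :=
  {K | K ∈ AllFields r₁ r₂ T ∧ ∀ E : IntermediateField ℚ K, E = ⊥ ∨ E = ⊤}

/-- The number fields inside `ℂ` for which Leopoldt's conjecture fails at the prime `p`. -/
def Fails (p : ℕ) : Set (IntermediateField ℚ ℂ) :=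
  {K | ∃ (_ : Fact p.Prime) (_ : NumberField K), ¬ LeopoldtAt K p}

theorem primFields_eq (r₁ r₂ : ℕ) (T : ℝ) : PrimFields r₁ r₂ T = PrimReg r₁ r₂ T := by
  ext K
  constructor
  · rintro ⟨⟨hK, h1, h2, h3⟩, h4⟩
    exact ⟨hK, h1, h2, h4, h3⟩
  · rintro ⟨hK, h1, h2, h4, h3⟩
    exact ⟨⟨hK, h1, h2, h3⟩, h4⟩

theorem allFields_eq (r₁ r₂ : ℕ) (T : ℝ) : AllFields r₁ r₂ T = AllReg r₁ r₂ T := rfl

theorem primReg_mono (r₁ r₂ : ℕ) (T T' : ℝ) (h : T ≤ T') : PrimReg r₁ r₂ T ⊆ PrimReg r₁ r₂ T' := by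
  rintro K ⟨hK, h1, h2, h4, h3⟩
  exact ⟨hK, h1, h2, h4, h3.trans h⟩

theorem final (hMain : MainConcl) (r₁ r₂ : ℕ) (h : 3 ≤ r₁ + r₂) :
    ((r₁ + 2 * r₂).Prime → ∀ T : ℝ, PrimFields r₁ r₂ T = AllFields r₁ r₂ T) ∧
    (∀ T : ℝ, (PrimFields r₁ r₂ T).Finite) ∧
    (∃ c T₀ : ℝ, 0 < c ∧ ∀ T : ℝ, T₀ ≤ T →
      Real.exp (c * T ^ (1 / ((r₁ : ℝ) + r₂ - 1))) ≤ (PrimFields r₁ r₂ T).ncard) ∧
    ∃ P : ℝ → ℕ, Tendsto P atTop atTop ∧ ∀ ε : ℝ, 0 < ε → ∃ C : ℝ, ∀ T : ℝ, 0 ≤ T →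
      ({K | K ∈ PrimFields r₁ r₂ T ∧ ∃ p ≤ P T, K ∈ Fails p}.ncard : ℝ) ≤
        C * Real.exp (ε * T ^ (1 / ((r₁ : ℝ) + r₂ - 1))) := by
  have h3 : (3 : ℝ) ≤ (r₁ : ℝ) + r₂ := by exact_mod_cast h
  have hr : 0 < 1 / ((r₁ : ℝ) + r₂ - 1) := by
    apply div_pos one_pos
    linarith
  refine ⟨?_, ?_, ?_, ?_⟩
  · intro hp T
    rw [primFields_eq, allFields_eq]
    exact (hMain 2 r₁ r₂ h).2.1 hp T
  · intro T
    rw [primFields_eq]
    exact (hMain 2 r₁ r₂ h).1 T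
  · simp only [primFields_eq]
    exact (hMain 2 r₁ r₂ h).2.2.1
  · obtain ⟨P, hP, hPb⟩ := diagonal (fun T => PrimReg r₁ r₂ T)
      (fun T T' hT => primReg_mono r₁ r₂ T T' hT) (fun T => (hMain 2 r₁ r₂ h).1 T) Fails
      (fun T => T ^ (1 / ((r₁ : ℝ) + r₂ - 1)))
      (fun T hT => Real.rpow_nonneg hT _) (tendsto_rpow_atTop hr) (by
        intro p ε hε
        by_cases hp : p.Prime
        · haveI : Fact p.Prime := ⟨hp⟩
          obtain ⟨C, hC⟩ := (hMain p r₁ r₂ h).2.2.2 ε hε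
          refine ⟨C, fun T hT => ?_⟩
          have : PrimReg r₁ r₂ T ∩ Fails p = PrimReg r₁ r₂ T ∩ Bad p := by
            ext K
            constructor
            · rintro ⟨h1, _, hK, h2⟩
              exact ⟨h1, hK, h2⟩
            · rintro ⟨h1, hK, h2⟩
              exact ⟨h1, ‹_›, hK, h2⟩
          rw [this]
          exact hC T hT
        · refine ⟨0, fun T _ => ?_⟩
          have : PrimReg r₁ r₂ T ∩ Fails p = ∅ := by
            ext K
            simp only [Set.mem_inter_iff, Set.mem_empty_iff_false, iff_false]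
            rintro ⟨_, hf, _⟩
            exact hp hf.out
          rw [this]
          simp)
    refine ⟨P, hP, fun ε hε => ?_⟩
    obtain ⟨C, hC⟩ := hPb ε hε
    refine ⟨C, fun T hT => ?_⟩
    have : {K | K ∈ PrimFields r₁ r₂ T ∧ ∃ p ≤ P T, K ∈ Fails p} =
        PrimReg r₁ r₂ T ∩ ⋃ p ∈ Finset.range (P T + 1), Fails p := by
      rw [← primFields_eq]
      ext K
      simp only [Set.mem_setOf_eq, Set.mem_inter_iff, Set.mem_iUnion, Finset.mem_range,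
        exists_prop]
      constructor
      · rintro ⟨h1, p, h2, h4⟩
        exact ⟨h1, p, by omega, h4⟩
      · rintro ⟨h1, p, h2, h4⟩
        exact ⟨h1, p, by omega, h4⟩
    rw [this]
    exact hC T hT

end Pool.Agent.LRG.H29
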