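import Pool.Agent.LRG.StmtsZ

/-!
# Squad LRG: the main theorem from the blocks
-/

set_option autoImplicit false

namespace Pool.Agent.LRG.H29

theorem mai (hFin : FinStmt) (hUpr : UprStmt) (hPri : PriStmt) (hCnts : CntStmt)
    (hClss : ClsStmt) (hGen : GenStmt) (hFib : FibStmt)
    (hUnv : UnvConcl) (hFal : FalConcl) (hSiz : SizConcl) (hBlk : BlkConcl) (hPpw : PpwConcl)
    (hOne : OneConcl) (hReg : RegConcl) (hLow : LowConcl) : MainConcl := by
  have hCls : ClsConcl := hClss hUnv hFal hSiz hBlk hPpw hGen hFib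
  have hCnt : CntConcl := hCnts hSiz hCls
  intro p _ r₁ r₂ h3
  refine ⟨fun T => hFin hOne hReg r₁ r₂ h3 T, fun hp T => hPri r₁ r₂ hp T, hLow r₁ r₂ h3, ?_⟩
  intro ε hε
  exact hUpr hOne hReg hCnt p r₁ r₂ h3 ε hε

end Pool.Agent.LRG.H29
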