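import Pool.Agent.Helper88_LRG.GEN
import Pool.Agent.Helper39_LRG.FIB
import Pool.Agent.Helper16_LRG.CLS
import Pool.Agent.Helper65_LRG.CNT
import Pool.Agent.Helper92_LRG.PRI
import Pool.Agent.Helper77_LRG.FIN
import Pool.Agent.Helper38_LRG.UPR
import Pool.Agent.Helper29_LRG.MAI
import Pool.Agent.Helper29_LRG.FIN2

/-!
# Squad LRG: block Z assembled
-/

set_option autoImplicit false

namespace Pool.Agent.LRG.H29

theorem mainConcl (hUnv : UnvConcl) (hFal : FalConcl) (hSiz : SizConcl) (hBlk : BlkConcl)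
    (hPpw : PpwConcl) (hOne : OneConcl) (hReg : RegConcl) (hLow : LowConcl) : MainConcl :=
  mai H77.fin H38.upr Helper92_LRG.pri H65.cnt H16.cls H88.gen H39.fib hUnv hFal hSiz hBlk hPpw
    hOne hReg hLow

end Pool.Agent.LRG.H29
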